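import Pool.Agent.Q54.KP.StmA

set_option autoImplicit false

/-!
# Project KP (helper54), base lemmas (helper38): products of counts, removal of degenerate functions,
concatenation of tuples
-/

namespace Pool.Agent.Q38.KP

open Finset
open Pool.Agent.Q54.KP

/-- a product count -/
theorem cnt_and_mul {α β : Type} [Finite α] [Finite β] (P : α → Prop) (Q : β → Prop) :
    cnt (fun p : α × β => P p.1 ∧ Q p.2) = cnt P * cnt Q := by
  classical
  have := Fintype.ofFinite α
  have := Fintype.ofFinite β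
  rw [cnt_prod (fun a b => P a ∧ Q b), cnt_eq_sum P, Finset.sum_mul]
  refine Finset.sum_congr rfl fun a _ => ?_
  by_cases ha : P a
  · simp [ha]
  · have h0 : cnt (fun b : β => P a ∧ Q b) = 0 := by
      unfold cnt
      have : IsEmpty {x : β // P a ∧ Q x} := ⟨fun x => ha x.2.1⟩
      simp
    rw [h0]
    simp [ha]

/-- functions on a disjoint union -/
theorem cnt_sum_fun {V ι κ : Type} [Finite V] [Finite ι] [Finite κ] (P : (ι → V) → Prop)
    (Q : (κ → V) → Prop) :
    cnt (fun h : ι ⊕ κ → V => P (fun i => h (Sum.inl i)) ∧ Q (fun j => h (Sum.inr j))) =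
      cnt P * cnt Q := by
  rw [← cnt_and_mul, ← cnt_equiv (Equiv.sumArrowEquivProdArrow ι κ V)
    (fun p : (ι → V) × (κ → V) => P p.1 ∧ Q p.2)]
  rfl

theorem nn_nonneg (V : Type) [Fintype V] : 0 ≤ nn V := Nat.cast_nonneg _

/-- removal of the degenerate functions: constant version -/
theorem clean (hN : S_NIJ) (a k : ℕ) (ρ : ℝ) (hρ : 0 < ρ) : ∃ n0 : ℕ,
    ∀ (V ι : Type) [Fintype V] [DecidableEq V] [Fintype ι], Fintype.card ι = a →
    n0 ≤ Fintype.card V → ∀ (P : (ι → V) → Prop) (X : Finset V), X.card ≤ k →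
    ρ * nn V ^ a ≤ cnt P →
    ρ / 2 * nn V ^ a ≤ cnt (fun f : ι → V => P f ∧ Function.Injective f ∧ ∀ i, f i ∉ X) := by
  classical
  refine ⟨⌈(a ^ 2 + a * k) * 2 / ρ⌉₊ + 1, ?_⟩
  intro V ι _ _ _ hcard hn P X hX hP
  have hnn : ((⌈((a : ℝ) ^ 2 + a * k) * 2 / ρ⌉₊ + 1 : ℕ) : ℝ) ≤ nn V := by
    unfold nn
    exact_mod_cast hn
  have hn1 : ((a : ℝ) ^ 2 + a * k) * 2 / ρ ≤ nn V := by
    refine (Nat.le_ceil _).trans (le_trans ?_ hnn)
    push_cast
    linarith
  have hn0 : 0 < nn V := by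
    refine lt_of_lt_of_le ?_ hnn
    push_cast
    positivity
  obtain ⟨h1, h2⟩ := hN V ι
  have h2X := h2 X
  have hnι : nn ι = a := by unfold nn; rw [hcard]
  rw [hnι, hcard] at h1 h2X
  have h3 : cnt P ≤ cnt (fun f : ι → V => P f ∧ Function.Injective f ∧ ∀ i, f i ∉ X) +
      (cnt (fun f : ι → V => ¬ Function.Injective f) + cnt (fun f : ι → V => ∃ i, f i ∈ X)) := by
    refine (cnt_mono (Q := fun f => (P f ∧ Function.Injective f ∧ ∀ i, f i ∉ X) ∨
      (¬ Function.Injective f ∨ ∃ i, f i ∈ X)) ?_).trans ((cnt_or_le _ _).trans ?_)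
    · intro f hf
      by_cases h : Function.Injective f
      · by_cases h' : ∃ i, f i ∈ X
        · exact Or.inr (Or.inr h')
        · push Not at h'
          exact Or.inl ⟨hf, h, h'⟩
      · exact Or.inr (Or.inl h)
    · gcongr
      exact cnt_or_le _ _
  have hXk : (X.card : ℝ) ≤ k := by exact_mod_cast hX
  have hpow : (0 : ℝ) ≤ nn V ^ a := by positivity
  have h4 : (cnt (fun f : ι → V => ¬ Function.Injective f) +
      cnt (fun f : ι → V => ∃ i, f i ∈ X)) * nn V ≤ ((a : ℝ) ^ 2 + a * k) * nn V ^ a := by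
    have h5 : (a : ℝ) * X.card * nn V ^ a ≤ a * k * nn V ^ a := by gcongr
    nlinarith [h1, h2X, h5]
  have h6 : ((a : ℝ) ^ 2 + a * k) ≤ ρ / 2 * nn V := by
    rw [div_le_iff₀ hρ] at hn1
    linarith
  have h7 : (cnt (fun f : ι → V => ¬ Function.Injective f) +
      cnt (fun f : ι → V => ∃ i, f i ∈ X)) ≤ ρ / 2 * nn V ^ a := by
    have h8 : (cnt (fun f : ι → V => ¬ Function.Injective f) +
      cnt (fun f : ι → V => ∃ i, f i ∈ X)) * nn V ≤ (ρ / 2 * nn V ^ a) * nn V := by
      refine h4.trans ?_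
      calc ((a : ℝ) ^ 2 + a * k) * nn V ^ a ≤ (ρ / 2 * nn V) * nn V ^ a := by gcongr
        _ = (ρ / 2 * nn V ^ a) * nn V := by ring
    exact le_of_mul_le_mul_right h8 hn0
  linarith

/-- image of a function on a disjoint union -/
theorem image_sum {V ι κ : Type} [DecidableEq V] [Fintype ι] [Fintype κ] (h : ι ⊕ κ → V) :
    univ.image h = univ.image (fun i => h (Sum.inl i)) ∪ univ.image (fun j => h (Sum.inr j)) := by
  ext x
  simp only [mem_image, mem_univ, true_and, mem_union]
  constructor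
  · rintro ⟨i | j, rfl⟩
    · exact Or.inl ⟨i, rfl⟩
    · exact Or.inr ⟨j, rfl⟩
  · rintro (⟨i, rfl⟩ | ⟨j, rfl⟩)
    · exact ⟨_, rfl⟩
    · exact ⟨_, rfl⟩

theorem image_sum_disj {V ι κ : Type} [DecidableEq V] [Fintype ι] [Fintype κ] {h : ι ⊕ κ → V}
    (hi : Function.Injective h) :
    Disjoint (univ.image (fun i => h (Sum.inl i))) (univ.image (fun j => h (Sum.inr j))) := by
  rw [Finset.disjoint_left]
  intro x hx hy
  simp only [mem_image, mem_univ, true_and] at hx hy
  obtain ⟨i, rfl⟩ := hx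
  obtain ⟨j, hj⟩ := hy
  exact absurd (hi hj) (by simp)

/-- transport of a count of injective tileable tuples to another index type -/
theorem cnt_til_equiv {V ι ι' : Type} [Fintype V] [DecidableEq V] [Fintype ι] [Fintype ι']
    (e : ι ≃ ι') (Q : Finset V → Prop) :
    cnt (fun f : ι → V => Function.Injective f ∧ Q (univ.image f)) ≤
      cnt (fun f : ι' → V => Function.Injective f ∧ Q (univ.image f)) := by
  refine cnt_le_of_inj (fun f => f ∘ e.symm) ?_ ?_
  · intro f g hfg
    funext i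
    have := congrFun hfg (e i)
    simpa using this
  · intro f hf
    have him : univ.image (f ∘ e.symm) = univ.image f := by
      ext x
      simp only [Finset.mem_image, Finset.mem_univ, true_and, Function.comp]
      constructor
      · rintro ⟨i, rfl⟩; exact ⟨_, rfl⟩
      · rintro ⟨i, rfl⟩; exact ⟨e i, by simp⟩
    refine ⟨hf.1.comp e.symm.injective, ?_⟩
    rw [him]
    exact hf.2

end Pool.Agent.Q38.KP
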