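import Pool.Agent.Q38.KP.Base

set_option autoImplicit false

/-!
# Project KP (helper54), job CNC (helper38): concatenation of reachability tuples
-/

namespace Pool.Agent.Q38.KP

open Finset
open Pool.Agent.Q54.KP

/-- the concatenation of connecting tuples -/
theorem rs_cat {V : Type} [DecidableEq V] {E : Finset (Finset V)} {t m1 m2 : ℕ} {u v : V}
    (h : Unit ⊕ (Fin m1 ⊕ Fin m2) → V) (hi : Function.Injective h) (hu : ∀ i, h i ≠ u)
    (hv : ∀ i, h i ≠ v)
    (h1 : RS E t u (h (Sum.inl ())) (fun i => h (Sum.inr (Sum.inl i))))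
    (h2 : RS E t (h (Sum.inl ())) v (fun i => h (Sum.inr (Sum.inr i)))) :
    RS E t u v h := by
  have hi2 : Function.Injective (fun x : Fin m1 ⊕ Fin m2 => h (Sum.inr x)) :=
    fun a b hab => Sum.inr_injective (hi hab)
  have hd := image_sum_disj hi2
  have himg : univ.image h = insert (h (Sum.inl ()))
      (univ.image (fun i : Fin m1 => h (Sum.inr (Sum.inl i))) ∪
        univ.image (fun i : Fin m2 => h (Sum.inr (Sum.inr i)))) := by
    rw [image_sum h, image_sum (fun x : Fin m1 ⊕ Fin m2 => h (Sum.inr x))]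
    ext x
    simp [eq_comm]
  refine ⟨hi, hu, hv, ?_, ?_⟩
  · have e : insert u (univ.image h) =
        insert u (univ.image (fun i : Fin m1 => h (Sum.inr (Sum.inl i)))) ∪
        insert (h (Sum.inl ())) (univ.image (fun i : Fin m2 => h (Sum.inr (Sum.inr i)))) := by
      rw [himg]
      ext x
      simp only [mem_insert, mem_union]
      tauto
    rw [e]
    refine til_union h1.2.2.2.1 h2.2.2.2.1 ?_
    rw [Finset.disjoint_left] at hd ⊢
    intro x hx hy
    rw [mem_insert] at hx hy
    rcases hx with rfl | hx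
    · rcases hy with hy | hy
      · exact hu _ hy.symm
      · simp only [mem_image, mem_univ, true_and] at hy
        obtain ⟨j, hj⟩ := hy
        exact hu _ hj
    · rcases hy with rfl | hy
      · simp only [mem_image, mem_univ, true_and] at hx
        obtain ⟨j, hj⟩ := hx
        exact absurd (hi hj) (by simp)
      · exact hd hx hy
  · have e : insert v (univ.image h) =
        insert (h (Sum.inl ())) (univ.image (fun i : Fin m1 => h (Sum.inr (Sum.inl i)))) ∪
        insert v (univ.image (fun i : Fin m2 => h (Sum.inr (Sum.inr i)))) := by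
      rw [himg]
      ext x
      simp only [mem_insert, mem_union]
      tauto
    rw [e]
    refine til_union h1.2.2.2.2 h2.2.2.2.2 ?_
    rw [Finset.disjoint_left] at hd ⊢
    intro x hx hy
    rw [mem_insert] at hx hy
    rcases hy with rfl | hy
    · rcases hx with hx | hx
      · exact hv _ hx.symm
      · simp only [mem_image, mem_univ, true_and] at hx
        obtain ⟨j, hj⟩ := hx
        exact hv _ hj
    · rcases hx with rfl | hx
      · simp only [mem_image, mem_univ, true_and] at hy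
        obtain ⟨j, hj⟩ := hy
        exact absurd (hi hj) (by simp)
      · exact hd hx hy

theorem cnc : S_NIJ → S_CNC := by
  classical
  intro hN t m1 m2 β1 β2 ε hβ1 hβ2 hε
  have hρ : 0 < ε * β1 * β2 := by positivity
  obtain ⟨n0, h0⟩ := clean hN (m1 + m2 + 1) 2 (ε * β1 * β2) hρ
  refine ⟨ε * β1 * β2 / 2, by positivity, n0, ?_⟩
  intro V _ _ E hn u v huv hw
  have hnn : (0 : ℝ) ≤ nn V := nn_nonneg V
  have h1 : ε * β1 * β2 * nn V ^ (m1 + m2 + 1) ≤
      cnt (fun h : Unit ⊕ (Fin m1 ⊕ Fin m2) → V =>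
        RS E t u (h (Sum.inl ())) (fun i => h (Sum.inr (Sum.inl i))) ∧
        RS E t (h (Sum.inl ())) v (fun i => h (Sum.inr (Sum.inr i)))) := by
    -- transport to pairs
    have e1 : cnt (fun h : Unit ⊕ (Fin m1 ⊕ Fin m2) → V =>
        RS E t u (h (Sum.inl ())) (fun i => h (Sum.inr (Sum.inl i))) ∧
        RS E t (h (Sum.inl ())) v (fun i => h (Sum.inr (Sum.inr i)))) =
        cnt (fun p : (Unit → V) × (Fin m1 ⊕ Fin m2 → V) =>
          RS E t u (p.1 ()) (fun i => p.2 (Sum.inl i)) ∧
          RS E t (p.1 ()) v (fun i => p.2 (Sum.inr i))) := by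
      rw [← cnt_equiv (Equiv.sumArrowEquivProdArrow Unit (Fin m1 ⊕ Fin m2) V)]
      rfl
    rw [e1, cnt_prod (fun (a : Unit → V) (b : Fin m1 ⊕ Fin m2 → V) =>
      RS E t u (a ()) (fun i => b (Sum.inl i)) ∧ RS E t (a ()) v (fun i => b (Sum.inr i)))]
    have e2 : ∑ a : Unit → V, cnt (fun b : Fin m1 ⊕ Fin m2 → V =>
        RS E t u (a ()) (fun i => b (Sum.inl i)) ∧ RS E t (a ()) v (fun i => b (Sum.inr i))) =
        ∑ w : V, cnt (fun b : Fin m1 ⊕ Fin m2 → V =>
        RS E t u w (fun i => b (Sum.inl i)) ∧ RS E t w v (fun i => b (Sum.inr i))) := by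
      refine Fintype.sum_equiv (Equiv.funUnique Unit V) _ _ ?_
      intro a
      rfl
    rw [e2]
    have e3 : ∀ w : V, cnt (fun b : Fin m1 ⊕ Fin m2 → V =>
        RS E t u w (fun i => b (Sum.inl i)) ∧ RS E t w v (fun i => b (Sum.inr i))) =
        cnt (fun f : Fin m1 → V => RS E t u w f) * cnt (fun g : Fin m2 → V => RS E t w v g) :=
      fun w => cnt_sum_fun _ _
    calc ε * β1 * β2 * nn V ^ (m1 + m2 + 1)
        = (ε * nn V) * (β1 * nn V ^ m1 * (β2 * nn V ^ m2)) := by ring
      _ ≤ cnt (fun w => w ≠ u ∧ w ≠ v ∧ Rc E t (Fin m1) β1 u w ∧ Rc E t (Fin m2) β2 w v) *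
          (β1 * nn V ^ m1 * (β2 * nn V ^ m2)) := by gcongr
      _ = ∑ w : V, (if w ≠ u ∧ w ≠ v ∧ Rc E t (Fin m1) β1 u w ∧ Rc E t (Fin m2) β2 w v
            then (1 : ℝ) else 0) * (β1 * nn V ^ m1 * (β2 * nn V ^ m2)) := by
          rw [cnt_eq_sum, Finset.sum_mul]
      _ ≤ _ := by
          refine Finset.sum_le_sum fun w _ => ?_
          rw [e3 w]
          split_ifs with hw'
          · obtain ⟨-, -, h3, h4⟩ := hw'
            unfold Rc at h3 h4
            rw [Fintype.card_fin] at h3 h4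
            rw [one_mul]
            exact mul_le_mul h3 h4 (by positivity) (cnt_nonneg _)
          · rw [zero_mul]
            exact mul_nonneg (cnt_nonneg _) (cnt_nonneg _)
  have h2 := h0 V (Unit ⊕ (Fin m1 ⊕ Fin m2)) (by simp; ring) hn _ {u, v}
    (Finset.card_le_two) h1
  have h3 : Rc E t (Unit ⊕ (Fin m1 ⊕ Fin m2)) (ε * β1 * β2 / 2) u v := by
    unfold Rc
    have : Fintype.card (Unit ⊕ (Fin m1 ⊕ Fin m2)) = m1 + m2 + 1 := by simp; ring
    rw [this]
    refine h2.trans (cnt_mono ?_)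
    rintro h ⟨⟨k1, k2⟩, k3, k4⟩
    refine rs_cat h k3 (fun i hi => k4 i (by simp [hi])) (fun i hi => k4 i (by simp [hi])) k1 k2
  refine Rc_equiv ?_ h3
  refine (Fintype.equivFinOfCardEq ?_)
  simp
  ring

end Pool.Agent.Q38.KP
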