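import Pool.Agent.Q38.KP.Base

set_option autoImplicit false

/-!
# Project KP (helper54), job CPY (helper38): many copies of the complete tripartite 3-graph
-/

namespace Pool.Agent.Q38.KP

open Finset
open Pool.Agent.Q54.KP

/-- three functions as one function on `Fin 3 × Fin t` -/
def join3 {V : Type} {t : ℕ} (q : (Fin t → V) × (Fin t → V) × (Fin t → V)) : Fin 3 × Fin t → V :=
  fun p => if p.1 = 0 then q.1 p.2 else if p.1 = 1 then q.2.1 p.2 else q.2.2 p.2

theorem join3_inj {V : Type} {t : ℕ} : Function.Injective (join3 (V := V) (t := t)) := by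
  intro q r h
  have h0 : q.1 = r.1 := by
    funext i
    simpa [join3] using congrFun h (0, i)
  have h1 : q.2.1 = r.2.1 := by
    funext i
    simpa [join3] using congrFun h (1, i)
  have h2 : q.2.2 = r.2.2 := by
    funext i
    simpa [join3] using congrFun h (2, i)
  exact Prod.ext h0 (Prod.ext h1 h2)

theorem cpy : S_SUP → S_NIJ → S_CPY := by
  classical
  intro hS hN t ρ ht hρ
  have hρ' : 0 < ρ ^ (t * t * t) := by positivity
  obtain ⟨n0, h0⟩ := clean hN (3 * t) 0 (ρ ^ (t * t * t)) hρ'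
  refine ⟨ρ ^ (t * t * t) / 2, by positivity, n0, ?_⟩
  intro V _ _ E A hA hn hcnt
  have h1 := hS V A t t t ρ hρ.le hcnt
  have h2 : ρ ^ (t * t * t) * nn V ^ (3 * t) ≤
      cnt (fun κ : Fin 3 × Fin t → V => ∀ i j k : Fin t, A (κ (0, i)) (κ (1, j)) (κ (2, k))) := by
    rw [show 3 * t = t + t + t by ring]
    refine h1.trans (cnt_le_of_inj join3 join3_inj ?_)
    intro q hq i j k
    simpa [join3] using hq i j k
  have h3 := h0 V (Fin 3 × Fin t) (by simp) hn _ ∅ (by simp) h2
  refine h3.trans (cnt_mono ?_)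
  rintro κ ⟨hκ, hi, -⟩
  exact ⟨⟨hi, fun i j k => hA _ _ _ (hκ i j k)⟩, hκ⟩

end Pool.Agent.Q38.KP
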