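import Pool.Agent.Q38.KP.Base

set_option autoImplicit false

/-!
# Project KP (helper54), job INC (helper38): lengthening reachability tuples
-/

namespace Pool.Agent.Q38.KP

open Finset
open Pool.Agent.Q54.KP

theorem inc : S_TLC → S_NIJ → S_INC := by
  classical
  intro hT hN t c s β ht hc hβ
  obtain ⟨τ, hτ, n1, h1⟩ := hT t c s ht hc
  have hL : 1 ≤ 3 * t * 2 ^ s := by
    have : 1 ≤ 2 ^ s := Nat.one_le_two_pow
    nlinarith
  have hlen : (3 * t * 2 ^ s - 1) + 3 * t * 2 ^ s = 3 * t * 2 ^ (s + 1) - 1 := by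
    have : 3 * t * 2 ^ (s + 1) = 3 * t * 2 ^ s + 3 * t * 2 ^ s := by ring
    omega
  obtain ⟨n0, h0⟩ := clean hN (3 * t * 2 ^ (s + 1) - 1) 2 (β * τ) (by positivity)
  refine ⟨β * τ / 2, by positivity, max n0 n1, ?_⟩
  intro V _ _ E hE hn u v huv hR
  have hn0 : n0 ≤ Fintype.card V := (le_max_left _ _).trans hn
  have hn1 : n1 ≤ Fintype.card V := (le_max_right _ _).trans hn
  have hnn : (0 : ℝ) ≤ nn V := nn_nonneg V
  have h2 := h1 V E hE hn1
  unfold Rc at hR
  rw [Fintype.card_fin] at hR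
  have h3 : β * τ * nn V ^ (3 * t * 2 ^ (s + 1) - 1) ≤
      cnt (fun h : Fin (3 * t * 2 ^ s - 1) ⊕ Fin (3 * t * 2 ^ s) → V =>
        RS E t u v (fun i => h (Sum.inl i)) ∧
        (Function.Injective (fun i => h (Sum.inr i)) ∧
          Til E t (univ.image (fun i => h (Sum.inr i))))) := by
    rw [cnt_sum_fun (fun f : Fin (3 * t * 2 ^ s - 1) → V => RS E t u v f)
      (fun g : Fin (3 * t * 2 ^ s) → V => Function.Injective g ∧ Til E t (univ.image g)), ← hlen]
    calc β * τ * nn V ^ ((3 * t * 2 ^ s - 1) + 3 * t * 2 ^ s)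
        = (β * nn V ^ (3 * t * 2 ^ s - 1)) * (τ * nn V ^ (3 * t * 2 ^ s)) := by ring
      _ ≤ _ := mul_le_mul hR h2 (by positivity) (cnt_nonneg _)
  have hcard : Fintype.card (Fin (3 * t * 2 ^ s - 1) ⊕ Fin (3 * t * 2 ^ s)) =
      3 * t * 2 ^ (s + 1) - 1 := by
    simp only [Fintype.card_sum, Fintype.card_fin]
    exact hlen
  have h4 := h0 V (Fin (3 * t * 2 ^ s - 1) ⊕ Fin (3 * t * 2 ^ s)) hcard hn0 _ {u, v}
    (Finset.card_le_two) h3
  have h5 : Rc E t (Fin (3 * t * 2 ^ s - 1) ⊕ Fin (3 * t * 2 ^ s)) (β * τ / 2) u v := by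
    unfold Rc
    rw [hcard]
    refine h4.trans (cnt_mono ?_)
    rintro h ⟨⟨k1, k2⟩, k3, k4⟩
    have hd := image_sum_disj k3
    have hu : ∀ i, h i ≠ u := fun i hi => k4 i (by simp [hi])
    have hv : ∀ i, h i ≠ v := fun i hi => k4 i (by simp [hi])
    have key : ∀ x : V, (∀ i, h i ≠ x) →
        Til E t (insert x (univ.image (fun i : Fin (3 * t * 2 ^ s - 1) => h (Sum.inl i)))) →
        Til E t (insert x (univ.image h)) := by
      intro x hx hx2
      rw [image_sum h, ← Finset.insert_union]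
      refine til_union hx2 k2.2 ?_
      rw [Finset.disjoint_insert_left]
      refine ⟨?_, hd⟩
      intro hm
      simp only [mem_image, mem_univ, true_and] at hm
      obtain ⟨j, hj⟩ := hm
      exact hx _ hj
    exact ⟨k3, hu, hv, key u hu k1.2.2.2.1, key v hv k1.2.2.2.2⟩
  exact Rc_equiv (Fintype.equivFinOfCardEq hcard) h5

end Pool.Agent.Q38.KP
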