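import Pool.Agent.Q38.KP.Base

set_option autoImplicit false

/-!
# Project KP (helper54), job LNK (helper38): vertices with a dense common link are reachable
-/

namespace Pool.Agent.Q38.KP

open Finset
open Pool.Agent.Q54.KP

/-- the copy through `u` -/
def thru {V : Type} {s : ℕ} (u : V) (h : Fin s ⊕ (Fin (s + 1) ⊕ Fin (s + 1)) → V) :
    Fin 3 × Fin (s + 1) → V :=
  fun p => if p.1 = 0 then (Fin.cons u (fun i => h (Sum.inl i)) : Fin (s + 1) → V) p.2
    else if p.1 = 1 then h (Sum.inr (Sum.inl p.2)) else h (Sum.inr (Sum.inr p.2))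

theorem thru_zero {V : Type} {s : ℕ} (u : V) (h : Fin s ⊕ (Fin (s + 1) ⊕ Fin (s + 1)) → V) :
    thru u h (0, 0) = u := by simp [thru]

theorem thru_succ {V : Type} {s : ℕ} (u : V) (h : Fin s ⊕ (Fin (s + 1) ⊕ Fin (s + 1)) → V)
    (i : Fin s) : thru u h (0, i.succ) = h (Sum.inl i) := by simp [thru]

theorem thru_one {V : Type} {s : ℕ} (u : V) (h : Fin s ⊕ (Fin (s + 1) ⊕ Fin (s + 1)) → V)
    (j : Fin (s + 1)) : thru u h (1, j) = h (Sum.inr (Sum.inl j)) := by simp [thru]

theorem thru_two {V : Type} {s : ℕ} (u : V) (h : Fin s ⊕ (Fin (s + 1) ⊕ Fin (s + 1)) → V)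
    (j : Fin (s + 1)) : thru u h (2, j) = h (Sum.inr (Sum.inr j)) := by simp [thru]

theorem til_thru {V : Type} [DecidableEq V] {E : Finset (Finset V)} {s : ℕ} (u : V)
    (h : Fin s ⊕ (Fin (s + 1) ⊕ Fin (s + 1)) → V) (hi : Function.Injective h)
    (hu : ∀ i, h i ≠ u)
    (he : ∀ i j k, ed E (h (Sum.inl i)) (h (Sum.inr (Sum.inl j))) (h (Sum.inr (Sum.inr k))))
    (hue : ∀ j k, ed E u (h (Sum.inr (Sum.inl j))) (h (Sum.inr (Sum.inr k)))) :
    Til E (s + 1) (insert u (univ.image h)) := by
  have hck : Ck E (s + 1) (thru u h) := by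
    refine ⟨?_, ?_⟩
    · rintro ⟨a, i⟩ ⟨b, j⟩ hab
      have : ∀ (a b : Fin 3) (i j : Fin (s + 1)), thru u h (a, i) = thru u h (b, j) →
          (a, i) = (b, j) := by
        intro a b i j
        fin_cases a <;> fin_cases b
        · refine Fin.cases ?_ (fun i => ?_) i <;> refine Fin.cases ?_ (fun j => ?_) j
          · intro _; rfl
          · intro h1
            simp only [Fin.zero_eta, Fin.isValue, thru_zero, thru_succ] at h1
            exact absurd h1.symm (hu _)
          · intro h1
            simp only [Fin.zero_eta, Fin.isValue, thru_zero, thru_succ] at h1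
            exact absurd h1 (hu _)
          · intro h1
            simp only [Fin.zero_eta, Fin.isValue, thru_succ] at h1
            have := hi h1
            simp only [Sum.inl.injEq] at this
            rw [this]
        · refine Fin.cases ?_ (fun i => ?_) i
          · intro h1
            simp only [Fin.zero_eta, Fin.mk_one, Fin.isValue, thru_zero, thru_one] at h1
            exact absurd h1.symm (hu _)
          · intro h1
            simp only [Fin.zero_eta, Fin.mk_one, Fin.isValue, thru_succ, thru_one] at h1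
            exact absurd (hi h1) (by simp)
        · refine Fin.cases ?_ (fun i => ?_) i
          · intro h1
            simp only [Fin.zero_eta, Fin.reduceFinMk, Fin.isValue, thru_zero, thru_two] at h1
            exact absurd h1.symm (hu _)
          · intro h1
            simp only [Fin.zero_eta, Fin.reduceFinMk, Fin.isValue, thru_succ, thru_two] at h1
            exact absurd (hi h1) (by simp)
        · refine Fin.cases ?_ (fun j => ?_) j
          · intro h1
            simp only [Fin.zero_eta, Fin.mk_one, Fin.isValue, thru_zero, thru_one] at h1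
            exact absurd h1 (hu _)
          · intro h1
            simp only [Fin.zero_eta, Fin.mk_one, Fin.isValue, thru_succ, thru_one] at h1
            exact absurd (hi h1) (by simp)
        · intro h1
          simp only [Fin.mk_one, Fin.isValue, thru_one] at h1
          have := hi h1
          simp only [Sum.inr.injEq, Sum.inl.injEq] at this
          rw [this]
        · intro h1
          simp only [Fin.mk_one, Fin.reduceFinMk, Fin.isValue, thru_one, thru_two] at h1
          exact absurd (hi h1) (by simp)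
        · refine Fin.cases ?_ (fun j => ?_) j
          · intro h1
            simp only [Fin.zero_eta, Fin.reduceFinMk, Fin.isValue, thru_zero, thru_two] at h1
            exact absurd h1 (hu _)
          · intro h1
            simp only [Fin.zero_eta, Fin.reduceFinMk, Fin.isValue, thru_succ, thru_two] at h1
            exact absurd (hi h1) (by simp)
        · intro h1
          simp only [Fin.mk_one, Fin.reduceFinMk, Fin.isValue, thru_one, thru_two] at h1
          exact absurd (hi h1) (by simp)
        · intro h1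
          simp only [Fin.reduceFinMk, Fin.isValue, thru_two] at h1
          have := hi h1
          simp only [Sum.inr.injEq] at this
          rw [this]
      exact this a b i j hab
    · intro i j k
      rw [thru_one, thru_two]
      refine Fin.cases ?_ (fun i => ?_) i
      · rw [thru_zero]
        exact hue j k
      · rw [thru_succ]
        exact he i j k
  have himg : univ.image (thru u h) = insert u (univ.image h) := by
    ext x
    simp only [mem_image, mem_univ, true_and, mem_insert, Prod.exists]
    constructor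
    · rintro ⟨a, i, rfl⟩
      fin_cases a
      · refine Fin.cases ?_ (fun i => ?_) i
        · exact Or.inl (thru_zero u h)
        · exact Or.inr ⟨_, (thru_succ u h i).symm⟩
      · exact Or.inr ⟨_, (thru_one u h i).symm⟩
      · exact Or.inr ⟨_, (thru_two u h i).symm⟩
    · rintro (rfl | ⟨i | j | k, rfl⟩)
      · exact ⟨0, 0, thru_zero x h⟩
      · exact ⟨0, i.succ, thru_succ u h i⟩
      · exact ⟨1, j, thru_one u h j⟩
      · exact ⟨2, k, thru_two u h k⟩
  rw [← himg]
  exact til_copy hck

theorem lnk : S_SUP → S_NIJ → S_LNK := by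
  classical
  intro hS hN t c β' ht hc hβ'
  obtain ⟨s, rfl⟩ : ∃ s, t = s + 1 := ⟨t - 1, by omega⟩
  have hρ : 0 < (β' * c) ^ (s * (s + 1) * (s + 1)) := by positivity
  have hlen : s + (s + 1) + (s + 1) = 3 * (s + 1) - 1 := by omega
  obtain ⟨n0, h0⟩ := clean hN (3 * (s + 1) - 1) 2 _ hρ
  refine ⟨(β' * c) ^ (s * (s + 1) * (s + 1)) / 2, by positivity, n0, ?_⟩
  intro V _ _ E hE hn u v huv hlk
  have hnn : (0 : ℝ) ≤ nn V := nn_nonneg V
  -- the dense relation
  have h1 : β' * c * nn V ^ 3 ≤ cnt (fun p : V × V × V =>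
      ed E p.1 p.2.1 p.2.2 ∧ ed E u p.2.1 p.2.2 ∧ ed E v p.2.1 p.2.2) := by
    have e1 : cnt (fun p : V × V × V =>
        ed E p.1 p.2.1 p.2.2 ∧ ed E u p.2.1 p.2.2 ∧ ed E v p.2.1 p.2.2) =
        cnt (fun p : (V × V) × V =>
          ed E p.2 p.1.1 p.1.2 ∧ ed E u p.1.1 p.1.2 ∧ ed E v p.1.1 p.1.2) := by
      rw [← cnt_equiv (Equiv.prodComm (V × V) V)]
      rfl
    rw [e1, cnt_prod (fun (q : V × V) (w : V) =>
      ed E w q.1 q.2 ∧ ed E u q.1 q.2 ∧ ed E v q.1 q.2)]
    calc β' * c * nn V ^ 3 = (β' * nn V ^ 2) * (c * nn V) := by ring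
      _ ≤ lk E u v * (c * nn V) := by gcongr
      _ = ∑ q : V × V, (if ed E u q.1 q.2 ∧ ed E v q.1 q.2 then (1 : ℝ) else 0) * (c * nn V) := by
          unfold lk
          rw [cnt_eq_sum, Finset.sum_mul]
      _ ≤ _ := by
          refine Finset.sum_le_sum fun q _ => ?_
          split_ifs with hq
          · rw [one_mul]
            have hne := (ed_ne hE.1 hq.1).2.2
            exact (hE.2 q.1 q.2 hne).trans (cnt_mono fun w hw =>
              ⟨(ed_comm12 E w q.1 q.2).2 ((ed_comm23 E q.1 w q.2).2 hw), hq⟩)
          · rw [zero_mul]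
            exact cnt_nonneg _
  have h2 := hS V (fun w x y => ed E w x y ∧ ed E u x y ∧ ed E v x y) s (s + 1) (s + 1)
    (β' * c) (by positivity) h1
  rw [hlen] at h2
  have h3 : (β' * c) ^ (s * (s + 1) * (s + 1)) * nn V ^ (3 * (s + 1) - 1) ≤
      cnt (fun h : Fin s ⊕ (Fin (s + 1) ⊕ Fin (s + 1)) → V =>
        (∀ i j k, ed E (h (Sum.inl i)) (h (Sum.inr (Sum.inl j))) (h (Sum.inr (Sum.inr k))) ∧
          ed E u (h (Sum.inr (Sum.inl j))) (h (Sum.inr (Sum.inr k))) ∧
          ed E v (h (Sum.inr (Sum.inl j))) (h (Sum.inr (Sum.inr k))))) := by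
    refine h2.trans (cnt_le_of_inj
      (fun q => Sum.elim q.1 (Sum.elim q.2.1 q.2.2)) ?_ ?_)
    · intro q r hqr
      have k0 : q.1 = r.1 := by
        funext i
        simpa using congrFun hqr (Sum.inl i)
      have k1 : q.2.1 = r.2.1 := by
        funext i
        simpa using congrFun hqr (Sum.inr (Sum.inl i))
      have k2 : q.2.2 = r.2.2 := by
        funext i
        simpa using congrFun hqr (Sum.inr (Sum.inr i))
      exact Prod.ext k0 (Prod.ext k1 k2)
    · intro q hq i j k
      exact hq i j k
  have hcard : Fintype.card (Fin s ⊕ (Fin (s + 1) ⊕ Fin (s + 1))) = 3 * (s + 1) - 1 := by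
    simp only [Fintype.card_sum, Fintype.card_fin]
    omega
  have h4 := h0 V (Fin s ⊕ (Fin (s + 1) ⊕ Fin (s + 1))) hcard hn _ {u, v}
    (Finset.card_le_two) h3
  have h5 : Rc E (s + 1) (Fin s ⊕ (Fin (s + 1) ⊕ Fin (s + 1)))
      ((β' * c) ^ (s * (s + 1) * (s + 1)) / 2) u v := by
    unfold Rc
    rw [hcard]
    refine h4.trans (cnt_mono ?_)
    rintro h ⟨k1, k3, k4⟩
    have hu : ∀ i, h i ≠ u := fun i hi => k4 i (by simp [hi])
    have hv : ∀ i, h i ≠ v := fun i hi => k4 i (by simp [hi])
    have hs : 0 < s := by omega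
    have i0 : Fin s := ⟨0, hs⟩
    exact ⟨k3, hu, hv, til_thru u h k3 hu (fun i j k => (k1 i j k).1) (fun j k => (k1 i0 j k).2.1),
      til_thru v h k3 hv (fun i j k => (k1 i j k).1) (fun j k => (k1 i0 j k).2.2)⟩
  exact Rc_equiv (Fintype.equivFinOfCardEq hcard) h5

end Pool.Agent.Q38.KP
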