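import Pool.Agent.Q38.KP.Base

set_option autoImplicit false

/-!
# Project KP (helper54), job TLC (helper38): many tileable tuples
-/

namespace Pool.Agent.Q38.KP

open Finset
open Pool.Agent.Q54.KP

/-- there are many edges -/
theorem many_edges {V : Type} [Fintype V] [DecidableEq V] {E : Finset (Finset V)} {c : ℝ}
    (hc : 0 < c) (hE : Cod E c) (hn : 2 ≤ Fintype.card V) :
    c / 2 * nn V ^ 3 ≤ cnt (fun p : V × V × V => ed E p.1 p.2.1 p.2.2) := by
  classical
  have hn2 : (2 : ℝ) ≤ nn V := by unfold nn; exact_mod_cast hn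
  rw [cnt_prod (fun (x : V) (q : V × V) => ed E x q.1 q.2)]
  have h1 : ∀ x : V, c / 2 * nn V ^ 2 ≤ cnt (fun q : V × V => ed E x q.1 q.2) := by
    intro x
    rw [cnt_prod (fun (y : V) (z : V) => ed E x y z)]
    have h2 : ∑ y : V, (if y ≠ x then c * nn V else 0) ≤ ∑ y : V, cnt (fun z => ed E x y z) := by
      refine Finset.sum_le_sum fun y _ => ?_
      split_ifs with hy
      · exact hE.2 x y (Ne.symm hy)
      · exact cnt_nonneg _
    refine le_trans ?_ h2
    rw [← Finset.sum_filter, Finset.sum_const, nsmul_eq_mul]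
    have h3 : ((univ.filter (fun y : V => y ≠ x)).card : ℝ) = nn V - 1 := by
      rw [Finset.filter_ne' univ x, Finset.card_erase_of_mem (Finset.mem_univ x), Finset.card_univ]
      rw [Nat.cast_sub (by omega), Nat.cast_one]
      rfl
    rw [h3]
    nlinarith [mul_pos hc (lt_of_lt_of_le two_pos hn2)]
  calc c / 2 * nn V ^ 3 = ∑ _x : V, c / 2 * nn V ^ 2 := by
        rw [Finset.sum_const, nsmul_eq_mul, Finset.card_univ]
        change _ = nn V * _
        ring
    _ ≤ _ := Finset.sum_le_sum fun x _ => h1 x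

theorem tlc : S_CPY → S_NIJ → S_TLC := by
  classical
  intro hC hN t c s ht hc
  induction s with
  | zero =>
    obtain ⟨ρ', hρ', n0, h0⟩ := hC t (c / 2) ht (by positivity)
    refine ⟨ρ', hρ', max n0 2, ?_⟩
    intro V _ _ E hE hn
    have h1 := h0 V E (fun x y z => ed E x y z) (fun x y z h => h) ((le_max_left _ _).trans hn)
      (many_edges hc hE ((le_max_right _ _).trans hn))
    have hcard : Fintype.card (Fin 3 × Fin t) = 3 * t * 2 ^ 0 := by simp
    rw [show 3 * t * 2 ^ 0 = 3 * t by ring] at hcard ⊢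
    refine h1.trans (le_trans (cnt_mono ?_)
      (cnt_til_equiv (Fintype.equivFinOfCardEq hcard) (fun X => Til E t X)))
    rintro κ ⟨hκ, -⟩
    exact ⟨hκ.1, til_copy hκ⟩
  | succ s ih =>
    obtain ⟨τ, hτ, n1, h1⟩ := ih
    have hlen : 3 * t * 2 ^ s + 3 * t * 2 ^ s = 3 * t * 2 ^ (s + 1) := by ring
    obtain ⟨n0, h0⟩ := clean hN (3 * t * 2 ^ (s + 1)) 0 (τ * τ) (by positivity)
    refine ⟨τ * τ / 2, by positivity, max n0 n1, ?_⟩
    intro V _ _ E hE hn
    have hn0 : n0 ≤ Fintype.card V := (le_max_left _ _).trans hn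
    have hn1 : n1 ≤ Fintype.card V := (le_max_right _ _).trans hn
    have hnn : (0 : ℝ) ≤ nn V := nn_nonneg V
    have h2 := h1 V E hE hn1
    have h3 : τ * τ * nn V ^ (3 * t * 2 ^ (s + 1)) ≤
        cnt (fun h : Fin (3 * t * 2 ^ s) ⊕ Fin (3 * t * 2 ^ s) → V =>
          (Function.Injective (fun i => h (Sum.inl i)) ∧
            Til E t (univ.image (fun i => h (Sum.inl i)))) ∧
          (Function.Injective (fun i => h (Sum.inr i)) ∧
            Til E t (univ.image (fun i => h (Sum.inr i))))) := by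
      rw [cnt_sum_fun (fun f : Fin (3 * t * 2 ^ s) → V =>
          Function.Injective f ∧ Til E t (univ.image f))
        (fun g : Fin (3 * t * 2 ^ s) → V => Function.Injective g ∧ Til E t (univ.image g)), ← hlen]
      calc τ * τ * nn V ^ (3 * t * 2 ^ s + 3 * t * 2 ^ s)
          = (τ * nn V ^ (3 * t * 2 ^ s)) * (τ * nn V ^ (3 * t * 2 ^ s)) := by ring
        _ ≤ _ := mul_le_mul h2 h2 (by positivity) (cnt_nonneg _)
    have hcard : Fintype.card (Fin (3 * t * 2 ^ s) ⊕ Fin (3 * t * 2 ^ s)) =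
        3 * t * 2 ^ (s + 1) := by
      simp only [Fintype.card_sum, Fintype.card_fin]
      exact hlen
    have h4 := h0 V (Fin (3 * t * 2 ^ s) ⊕ Fin (3 * t * 2 ^ s)) hcard hn0 _ ∅ (by simp) h3
    refine h4.trans (le_trans (cnt_mono ?_)
      (cnt_til_equiv (Fintype.equivFinOfCardEq hcard) (fun X => Til E t X)))
    rintro h ⟨⟨k1, k2⟩, k3, -⟩
    refine ⟨k3, ?_⟩
    rw [image_sum h]
    exact til_union k1.2 k2.2 (image_sum_disj k3)

end Pool.Agent.Q38.KP
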